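import Mathlib
import Pool.Agent.LibPF14.OneTapeBound

/-!
# Deterministic prime finding: a lower bound for the time of one-tape machines

A deterministic one-tape Turing machine which, on every input `1^k`, halts with a prime with at
least `k` digits in base `b` on its tape needs at least `k log k / (6 log (|Q| + 1))` steps on
every input `1^k` with `k ≥ 2 (|Q| + 1)`.
-/

set_option autoImplicit false

namespace Pool.Agent.Results.MP_118dec_lc.OneTapeTime

open Pool.Agent.LibPF14

theorem result (b : ℕ) (hb : 2 ≤ b) (msb : Bool) (Q Γ : Type) [Fintype Q] (M : OneTM b Q Γ)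
    (h : SolvesOne M msb) (k n : ℕ) (w : List (Fin b)) (hk : 2 * (Fintype.card Q + 1) ≤ k)
    (hw : HaltsWith M k n w) :
    (k : ℝ) * Real.log k ≤ 6 * Real.log (Fintype.card Q + 1) * n :=
  one_tape_bound hb h hk hw

end Pool.Agent.Results.MP_118dec_lc.OneTapeTime
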