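import Mathlib

/-! Formulas with summation loops over constant-recursive sequences do not produce primes. -/

set_option autoImplicit false

namespace Pool.Agent.Results.MP_118dec_lc.SummationFormulas

open Finset

/-- Index formulas in `n` variables (values in the natural numbers): variables, tables depending on the
residues of the variables, sums, products, and loops `∑ j < q(x), e(j, x)`. They are used as exponents
and as ranges of loops. -/
inductive Ix : ℕ → Type
  | var {n : ℕ} (i : Fin n) : Ix n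
  | table {n : ℕ} (m : ℕ) (c : (Fin n → ℕ) → ℕ) : Ix n
  | add {n : ℕ} (e f : Ix n) : Ix n
  | mul {n : ℕ} (e f : Ix n) : Ix n
  | loop {n : ℕ} (q : Ix n) (e : Ix (n + 1)) : Ix n

/-- the value of an index formula -/
def Ix.eval : {n : ℕ} → Ix n → (Fin n → ℕ) → ℕ
  | _, Ix.var i, x => x i
  | _, Ix.table m c, x => c (fun i => x i % (m + 1))
  | _, Ix.add e f, x => e.eval x + f.eval x
  | _, Ix.mul e f, x => e.eval x * f.eval x
  | _, Ix.loop q e, x => ∑ j ∈ range (q.eval x), e.eval (Fin.cons j x)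

/-- Formulas in `n` variables (values in the integers): index formulas, tables depending on the residues
of the variables, entries of powers `A ^ q(x)` of integer matrices with nonzero determinant (so `a ^ q(x)`
for every integer `a ≠ 0`, Fibonacci numbers, ...), sums, products, and loops `∑ j < q(x), e(j, x)`. -/
inductive Ex : ℕ → Type
  | ix {n : ℕ} (q : Ix n) : Ex n
  | table {n : ℕ} (m : ℕ) (c : (Fin n → ℕ) → ℤ) : Ex n
  | mpow {n : ℕ} (d : ℕ) (A : Matrix (Fin d) (Fin d) ℤ) (hA : A.det ≠ 0) (i j : Fin d) (q : Ix n) : Ex n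
  | add {n : ℕ} (e f : Ex n) : Ex n
  | mul {n : ℕ} (e f : Ex n) : Ex n
  | loop {n : ℕ} (q : Ix n) (e : Ex (n + 1)) : Ex n

/-- the value of a formula -/
def Ex.eval : {n : ℕ} → Ex n → (Fin n → ℕ) → ℤ
  | _, Ex.ix q, x => q.eval x
  | _, Ex.table m c, x => c (fun i => x i % (m + 1))
  | _, Ex.mpow _ A _ i j q, x => (A ^ q.eval x) i j
  | _, Ex.add e f, x => e.eval x + f.eval x
  | _, Ex.mul e f, x => e.eval x * f.eval x
  | _, Ex.loop q e, x => ∑ j ∈ range (q.eval x), e.eval (Fin.cons j x)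

/-- product of the absolute values of the determinants -/
def Ex.dets : {n : ℕ} → Ex n → ℕ
  | _, Ex.ix _ => 1
  | _, Ex.table _ _ => 1
  | _, Ex.mpow _ A _ _ _ _ => A.det.natAbs
  | _, Ex.add e f => e.dets * f.dets
  | _, Ex.mul e f => e.dets * f.dets
  | _, Ex.loop _ e => e.dets

theorem dets_pos {n : ℕ} (e : Ex n) : 0 < e.dets := by
  induction e with
  | ix q => exact one_pos
  | table m c => exact one_pos
  | mpow d A hA i j q => exact Int.natAbs_pos.2 hA
  | add e f he hf => exact Nat.mul_pos he hf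
  | mul e f he hf => exact Nat.mul_pos he hf
  | loop q e he => exact he

/-- sums over ranges -/
theorem sum_per {M T : ℕ} (g : ℕ → ZMod M) (hg : ∀ j, g (j + T) = g j) (a t : ℕ) :
    ∑ j ∈ range (a + T * M * t), g j = ∑ j ∈ range a, g j := by
  have h1 : ∀ a, ∑ j ∈ range (a + T), g j = ∑ j ∈ range a, g j + ∑ j ∈ range T, g j := by
    intro a
    induction a with
    | zero => simp
    | succ a ih =>
      rw [show a + 1 + T = (a + T) + 1 from by ring, sum_range_succ, ih, hg, sum_range_succ]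
      ring
  have h2 : ∀ n, ∑ j ∈ range (a + T * n), g j = ∑ j ∈ range a, g j + n * ∑ j ∈ range T, g j := by
    intro n
    induction n with
    | zero => simp
    | succ n ih =>
      rw [show a + T * (n + 1) = (a + T * n) + T from by ring, h1, ih]
      push_cast
      ring
  have := h2 (M * t)
  rw [← mul_assoc] at this
  rw [this]
  simp

/-- loops of periodic functions are periodic -/
theorem loop_per {M T n : ℕ} (f : ℕ → (Fin n → ℕ) → ZMod M)
    (hf : ∀ j l x y, j ≡ l [MOD T] → (∀ i, x i ≡ y i [MOD T]) → f j x = f l y)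
    {x y : Fin n → ℕ} (hxy : ∀ i, x i ≡ y i [MOD T]) {a b : ℕ} (hab : a ≡ b [MOD T * M]) :
    ∑ j ∈ range a, f j x = ∑ j ∈ range b, f j y := by
  have key : ∀ {x y : Fin n → ℕ} {a b : ℕ}, (∀ i, x i ≡ y i [MOD T]) → a ≤ b → a ≡ b [MOD T * M] →
      ∑ j ∈ range a, f j x = ∑ j ∈ range b, f j y := by
    intro x y a b hxy hle hab
    obtain ⟨t, ht⟩ := (Nat.modEq_iff_dvd' hle).1 hab
    have hr : b = a + T * M * t := by omega
    rw [hr, sum_per (fun j => f j y)]
    · exact sum_congr rfl (fun j _ => hf j j x y (Nat.ModEq.refl _) hxy)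
    · intro j
      exact hf _ _ _ _ (by simp [Nat.ModEq]) (fun i => Nat.ModEq.refl _)
  rcases le_total a b with hle | hle
  · exact key hxy hle hab
  · exact (key (fun i => (hxy i).symm) hle hab.symm).symm

/-- index formulas are purely periodic modulo every `M` -/
theorem ix_per {n : ℕ} (e : Ix n) : ∀ M : ℕ, 0 < M → ∃ T : ℕ, 0 < T ∧ ∀ x y : Fin n → ℕ,
    (∀ i, x i ≡ y i [MOD T]) → e.eval x ≡ e.eval y [MOD M] := by
  induction e with
  | var i => exact fun M hM => ⟨M, hM, fun x y h => h i⟩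
  | table m c =>
    intro M hM
    refine ⟨m + 1, Nat.succ_pos m, fun x y hxy => ?_⟩
    have : (fun i => x i % (m + 1)) = fun i => y i % (m + 1) := funext hxy
    simp only [Ix.eval, this]
    rfl
  | add e f he hf =>
    intro M hM
    obtain ⟨T, hT, h1⟩ := he M hM
    obtain ⟨S, hS, h2⟩ := hf M hM
    exact ⟨T * S, Nat.mul_pos hT hS, fun x y hxy =>
      (h1 x y (fun i => (hxy i).of_mul_right S)).add (h2 x y (fun i => (hxy i).of_mul_left T))⟩
  | mul e f he hf =>
    intro M hM
    obtain ⟨T, hT, h1⟩ := he M hM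
    obtain ⟨S, hS, h2⟩ := hf M hM
    exact ⟨T * S, Nat.mul_pos hT hS, fun x y hxy =>
      (h1 x y (fun i => (hxy i).of_mul_right S)).mul (h2 x y (fun i => (hxy i).of_mul_left T))⟩
  | loop q e hq he =>
    intro M hM
    obtain ⟨T, hT, h1⟩ := he M hM
    obtain ⟨S, hS, h2⟩ := hq (T * M) (Nat.mul_pos hT hM)
    refine ⟨T * S, Nat.mul_pos hT hS, fun x y hxy => ?_⟩
    rw [← ZMod.natCast_eq_natCast_iff]
    simp only [Ix.eval, Nat.cast_sum]
    refine loop_per (T := T) (fun j x => ((e.eval (Fin.cons j x) : ℕ) : ZMod M)) ?_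
      (fun i => (hxy i).of_mul_right S) (h2 x y (fun i => (hxy i).of_mul_left T))
    intro j l x y hjl hxy
    rw [ZMod.natCast_eq_natCast_iff]
    apply h1
    intro i
    refine Fin.cases ?_ (fun i => ?_) i
    · simpa using hjl
    · simpa using hxy i

/-- powers of an invertible element of a finite monoid -/
theorem pow_per {G : Type*} [Monoid G] [Finite G] {u : G} (hu : IsUnit u) :
    ∃ T : ℕ, 0 < T ∧ ∀ q r : ℕ, q ≡ r [MOD T] → u ^ q = u ^ r := by
  obtain ⟨u, rfl⟩ := hu
  have : Finite Gˣ := inferInstance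
  have ho := isOfFinOrder_of_finite u
  refine ⟨orderOf u, ho.orderOf_pos, fun q r h => ?_⟩
  rw [← Units.val_pow_eq_pow_val, ← Units.val_pow_eq_pow_val, pow_eq_pow_iff_modEq.2 h]

/-- formulas are purely periodic modulo every `M` prime to the determinants -/
theorem ex_per (M : ℕ) (hM : 0 < M) {n : ℕ} (e : Ex n) (h : Nat.Coprime M e.dets) :
    ∃ T : ℕ, 0 < T ∧ ∀ x y : Fin n → ℕ,
      (∀ i, x i ≡ y i [MOD T]) → ((e.eval x : ℤ) : ZMod M) = ((e.eval y : ℤ) : ZMod M) := by
  have : NeZero M := ⟨hM.ne'⟩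
  induction e with
  | ix q =>
    obtain ⟨T, hT, h1⟩ := ix_per q M hM
    refine ⟨T, hT, fun x y hxy => ?_⟩
    simp only [Ex.eval, Int.cast_natCast]
    exact (ZMod.natCast_eq_natCast_iff _ _ _).2 (h1 x y hxy)
  | table m c =>
    refine ⟨m + 1, Nat.succ_pos m, fun x y hxy => ?_⟩
    have : (fun i => x i % (m + 1)) = fun i => y i % (m + 1) := funext hxy
    simp only [Ex.eval, this]
  | mpow d A hA i j q =>
    have hu : IsUnit (A.map (Int.cast : ℤ → ZMod M)) := by
      rw [Matrix.isUnit_iff_isUnit_det]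
      have e1 : (A.map (Int.cast : ℤ → ZMod M)).det = ((A.det : ℤ) : ZMod M) := by
        have := (Int.castRingHom (ZMod M)).map_det A
        exact this.symm
      rw [e1, ZMod.coe_int_isUnit_iff_isCoprime]
      have h' : M.Coprime A.det.natAbs := h
      exact Int.isCoprime_iff_nat_coprime.2 (by simpa using h')
    obtain ⟨S, hS, h2⟩ := pow_per hu
    obtain ⟨T, hT, h1⟩ := ix_per q S hS
    refine ⟨T, hT, fun x y hxy => ?_⟩
    have h3 : ∀ r : ℕ, (((A ^ r) i j : ℤ) : ZMod M) = (A.map (Int.cast : ℤ → ZMod M) ^ r) i j := by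
      intro r
      have e2 : (A ^ r).map (Int.cast : ℤ → ZMod M) = A.map (Int.cast : ℤ → ZMod M) ^ r := by
        have := map_pow ((Int.castRingHom (ZMod M)).mapMatrix (m := Fin d)) A r
        exact this
      rw [← e2, Matrix.map_apply]
    simp only [Ex.eval, h3]
    rw [h2 _ _ (h1 x y hxy)]
  | add e f he hf =>
    obtain ⟨T, hT, h1⟩ := he (Nat.Coprime.coprime_mul_right_right h)
    obtain ⟨S, hS, h2⟩ := hf (Nat.Coprime.coprime_mul_left_right h)
    refine ⟨T * S, Nat.mul_pos hT hS, fun x y hxy => ?_⟩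
    simp only [Ex.eval, Int.cast_add]
    rw [h1 x y (fun i => (hxy i).of_mul_right S), h2 x y (fun i => (hxy i).of_mul_left T)]
  | mul e f he hf =>
    obtain ⟨T, hT, h1⟩ := he (Nat.Coprime.coprime_mul_right_right h)
    obtain ⟨S, hS, h2⟩ := hf (Nat.Coprime.coprime_mul_left_right h)
    refine ⟨T * S, Nat.mul_pos hT hS, fun x y hxy => ?_⟩
    simp only [Ex.eval, Int.cast_mul]
    rw [h1 x y (fun i => (hxy i).of_mul_right S), h2 x y (fun i => (hxy i).of_mul_left T)]
  | loop q e he =>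
    obtain ⟨T, hT, h1⟩ := he h
    obtain ⟨S, hS, h2⟩ := ix_per q (T * M) (Nat.mul_pos hT hM)
    refine ⟨T * S, Nat.mul_pos hT hS, fun x y hxy => ?_⟩
    simp only [Ex.eval, Int.cast_sum]
    refine loop_per (T := T) (fun j x => ((e.eval (Fin.cons j x) : ℤ) : ZMod M)) ?_
      (fun i => (hxy i).of_mul_right S) (h2 x y (fun i => (hxy i).of_mul_left T))
    intro j l x y hjl hxy
    apply h1
    intro i
    refine Fin.cases ?_ (fun i => ?_) i
    · simpa using hjl
    · simpa using hxy i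

/-- Main result. -/
theorem result :
    (∀ (F : Ex 1) (M : ℕ), 0 < M → Nat.Coprime M F.dets → ∃ T : ℕ, 0 < T ∧ ∀ k t : ℕ,
      F.eval (fun _ => k + T * t) ≡ F.eval (fun _ => k) [ZMOD M]) ∧
    ∀ (b : ℕ) (N : ℕ → ℕ), 2 ≤ b → (∀ k : ℕ, 1 ≤ k → b ^ (k - 1) ≤ N k) →
      ∀ (F : Ex 1) (D : ℤ) (r m : ℕ), D ≠ 0 → 0 < m →
        (∀ k : ℕ, D * (N (r + m * k) : ℤ) = F.eval (fun _ => k)) →
        ∃ a d : ℕ, 0 < d ∧ ∀ t : ℕ, ¬ (N (r + m * (a + d * t))).Prime := by
  have h1 : ∀ (F : Ex 1) (M : ℕ), 0 < M → Nat.Coprime M F.dets → ∃ T : ℕ, 0 < T ∧ ∀ k t : ℕ,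
      F.eval (fun _ => k + T * t) ≡ F.eval (fun _ => k) [ZMOD M] := by
    intro F M hM hc
    obtain ⟨T, hT, h⟩ := ex_per M hM F hc
    refine ⟨T, hT, fun k t => ?_⟩
    rw [← ZMod.intCast_eq_intCast_iff]
    apply h
    intro _
    simp [Nat.ModEq]
  refine ⟨h1, fun b N hb hN F D r m hD hm hF => ?_⟩
  have big : ∀ k, k < N (r + m * (k + 2)) := by
    intro k
    have h2 := hN (r + m * (k + 2)) (by nlinarith)
    have h3 : r + m * (k + 2) - 1 < b ^ (r + m * (k + 2) - 1) := Nat.lt_pow_self (by omega)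
    have h4 : k + 2 ≤ m * (k + 2) := Nat.le_mul_of_pos_left _ hm
    omega
  by_cases hall : ∃ k : ℕ, F.dets + D.natAbs ≤ k ∧ (N (r + m * (k + 2))).Prime
  · obtain ⟨k, hk, hp⟩ := hall
    set p := N (r + m * (k + 2)) with hpdef
    have hlt : F.dets + D.natAbs < p := lt_of_le_of_lt hk (big k)
    have hc : Nat.Coprime p F.dets := by
      rw [Nat.Prime.coprime_iff_not_dvd hp]
      intro hd
      exact absurd (Nat.le_of_dvd (dets_pos F) hd) (by omega)
    obtain ⟨T, hT, h⟩ := h1 F p hp.pos hc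
    refine ⟨k + 2 + T * p, T, hT, fun t hq => ?_⟩
    have h2 := h (k + 2) (p + t)
    rw [show k + 2 + T * (p + t) = k + 2 + T * p + T * t from by ring, ← hF, ← hF, ← hpdef] at h2
    set q := N (r + m * (k + 2 + T * p + T * t)) with hqdef
    have h3 : (p : ℤ) ∣ D * (q : ℤ) := by
      have h4 := h2.symm.dvd
      have h5 : D * (q : ℤ) = (D * (q : ℤ) - D * (p : ℤ)) + D * p := by ring
      rw [h5]
      exact dvd_add h4 (dvd_mul_left _ _)
    have h4 : p ∣ D.natAbs * q := by
      have := Int.natAbs_dvd_natAbs.2 h3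
      simpa [Int.natAbs_mul] using this
    rcases (Nat.Prime.dvd_mul hp).1 h4 with h5 | h5
    · have := Nat.le_of_dvd (Int.natAbs_pos.2 hD) h5
      omega
    · have h6 : p = q := (Nat.prime_dvd_prime_iff_eq hp hq).1 h5
      have h7 := big (k + T * p + T * t)
      rw [show k + T * p + T * t + 2 = k + 2 + T * p + T * t from by ring, ← hqdef, ← h6] at h7
      have h9 : p ≤ T * p := Nat.le_mul_of_pos_left p hT
      omega
  · push Not at hall
    refine ⟨F.dets + D.natAbs + 2, 1, one_pos, fun t hp => ?_⟩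
    refine hall (F.dets + D.natAbs + 1 * t) (by omega) ?_
    rw [show F.dets + D.natAbs + 1 * t + 2 = F.dets + D.natAbs + 2 + 1 * t from by ring]
    exact hp

end Pool.Agent.Results.MP_118dec_lc.SummationFormulas
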