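import Mathlib
import Pool.Agent.LibPF14.Space

/-!
# Deterministic prime finding: a lower bound for configurations and work space

A deterministic device with a read-only two-way input head which, on every input `1^k`, prints a
prime with at least `k` digits in base `b` is in at least `k` internal configurations on input
`1^k`; so a multi-tape Turing machine with a read-only input tape needs work space of order at
least `log k`.
-/

set_option autoImplicit false

namespace Pool.Agent.Results.MP_118dec_lc.WorkSpace

open Pool.Agent.LibPF14

theorem result (b : ℕ) (hb : 2 ≤ b) (msb : Bool) :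
    (∀ (C : Type) (D : Device b C), Solves D msb →
      ∀ k : ℕ, 1 ≤ k → (k : ℕ∞) ≤ (visited D k).encard) ∧
    (∀ (m : ℕ) (Q Γ : Type) [Fintype Q] [Fintype Γ] (M : OffTM b m Q Γ),
      Solves M.toDevice msb → ∀ k s : ℕ, 1 ≤ k → WithinSpace M k s →
        Real.log k ≤
          (Real.log (Fintype.card Q) + 2 * m * (1 + Real.log (Fintype.card Γ))) * (s + 1)) := by
  refine ⟨fun C D h k hk => device_bound hb h hk, ?_⟩
  intro m Q Γ _ _ M h k s hk hs
  exact space_log_bound hb h hk hs

end Pool.Agent.Results.MP_118dec_lc.WorkSpace
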